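import Pool.Agent.H83.FS.Stm

/-!
Bringing tokens of one colour to a set of vertices (project FS of helper83).
-/

set_option autoImplicit false

namespace Pool.Agent.H707.FS83

open Pool.Agent.H83.FS

theorem bring (h : S_slide) : S_bring := by
  intro V T _ _ _ Y col P K Z c σ hK hZ hcard
  obtain ⟨n, hn⟩ : ∃ n, (Z.filter (fun x => ¬ pc col σ x = c)).card = n := ⟨_, rfl⟩
  induction n generalizing σ with
  | zero =>
    refine ⟨σ, Rch.refl Y col σ, fun _ _ => rfl, fun z hz => ?_, fun _ _ => rfl⟩
    by_contra hzc
    have : z ∈ Z.filter (fun x => ¬ pc col σ x = c) := Finset.mem_filter.2 ⟨hz, hzc⟩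
    rw [Finset.card_eq_zero.1 hn] at this
    exact absurd this (Finset.notMem_empty z)
  | succ n ih =>
    obtain ⟨z, hz⟩ : (Z.filter (fun x => ¬ pc col σ x = c)).Nonempty := by
      rw [← Finset.card_pos, hn]
      exact Nat.succ_pos n
    obtain ⟨hzZ, hzc⟩ := Finset.mem_filter.1 hz
    obtain ⟨s, hsK, hsc, hsZ⟩ : ∃ s ∈ K, pc col σ s = c ∧ s ∉ Z := by
      by_contra hcon
      push Not at hcon
      have h1 : K.filter (fun x => pc col σ x = c) ⊆ Z.erase z := by
        intro x hx
        obtain ⟨hx1, hx2⟩ := Finset.mem_filter.1 hx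
        refine Finset.mem_erase.2 ⟨?_, hcon x hx1 hx2⟩
        rintro rfl
        exact hzc hx2
      have h2 := Finset.card_le_card h1
      have h3 := Finset.card_erase_lt_of_mem hzZ
      omega
    have hzK := hZ hzZ
    have hsz : s ≠ z := fun e => hsZ (e ▸ hzZ)
    obtain ⟨τ, h1, h2, h3, h4, h5⟩ := h V T Y col P s z (hK s hsK z hzK) σ
      (by rw [hsc]; exact fun e => hzc e.symm)
    have hbad : (Z.filter (fun x => ¬ pc col τ x = c)).card = n := by
      have e1 : Z.filter (fun x => ¬ pc col τ x = c) =
          (Z.filter (fun x => ¬ pc col σ x = c)).erase z := by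
        ext x
        rw [Finset.mem_filter, Finset.mem_erase, Finset.mem_filter]
        constructor
        · rintro ⟨hx1, hx2⟩
          have hxz : x ≠ z := by
            rintro rfl
            exact hx2 (h4.trans hsc)
          have hxs : x ≠ s := fun e => hsZ (e ▸ hx1)
          rw [h5 x hxs hxz] at hx2
          exact ⟨hxz, hx1, hx2⟩
        · rintro ⟨hxz, hx1, hx2⟩
          have hxs : x ≠ s := fun e => hsZ (e ▸ hx1)
          rw [h5 x hxs hxz]
          exact ⟨hx1, hx2⟩
      rw [e1, Finset.card_erase_of_mem hz, hn, Nat.add_sub_cancel]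
    have hcard' : Z.card ≤ (K.filter (fun x => pc col τ x = c)).card := by
      have e1 : K.filter (fun x => pc col τ x = c) =
          insert z ((K.filter (fun x => pc col σ x = c)).erase s) := by
        ext x
        rw [Finset.mem_filter, Finset.mem_insert, Finset.mem_erase, Finset.mem_filter]
        constructor
        · rintro ⟨hx1, hx2⟩
          by_cases hxz : x = z
          · exact Or.inl hxz
          · have hxs : x ≠ s := by
              rintro rfl
              exact hzc (h3.symm.trans hx2)
            rw [h5 x hxs hxz] at hx2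
            exact Or.inr ⟨hxs, hx1, hx2⟩
        · rintro (hx | ⟨hxs, hx1, hx2⟩)
          · rw [hx]
            exact ⟨hzK, h4.trans hsc⟩
          · have hxz : x ≠ z := by
              rintro rfl
              exact hzc hx2
            rw [h5 x hxs hxz]
            exact ⟨hx1, hx2⟩
      have hs' : s ∈ K.filter (fun x => pc col σ x = c) := Finset.mem_filter.2 ⟨hsK, hsc⟩
      have hpos := Finset.card_pos.2 ⟨s, hs'⟩
      have hzn : z ∉ (K.filter (fun x => pc col σ x = c)).erase s := fun hmem =>
        hzc (Finset.mem_filter.1 (Finset.mem_of_mem_erase hmem)).2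
      rw [e1, Finset.card_insert_of_notMem hzn, Finset.card_erase_of_mem hs']
      omega
    obtain ⟨υ, k1, k2, k3, k4⟩ := ih τ hcard' hbad
    refine ⟨υ, h1.trans k1, fun x hx => (k2 x hx).trans (h2 x hx), k3, fun x hx => ?_⟩
    rw [k4 x hx]
    exact h5 x (fun e => hx (e ▸ hsK)) (fun e => hx (e ▸ hzK))

end Pool.Agent.H707.FS83
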